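import Pool.Agent.H88.MC.Targets

/-!
# Pairs for which almost all vertices look balanced
-/

set_option autoImplicit false

namespace Pool.Agent.H51.MCH

open Finset Pool.Agent.H88.MC

open scoped Classical in
/-- the bipartitions of `U` -/
noncomputable def YU {n : ℕ} (U : Finset (Fin n)) : Finset (Fin n → Bool) :=
  {y | ∀ v, v ∉ U → y v = false}

lemma mem_YU {n : ℕ} {U : Finset (Fin n)} {y : Fin n → Bool} :
    y ∈ YU U ↔ ∀ v, v ∉ U → y v = false := by
  simp [YU]

lemma sg_not (b : Bool) : sg (!b) = -sg b := by cases b <;> simp [sg]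

lemma sg_sq (b : Bool) : sg b ^ 2 = 1 := by cases b <;> simp [sg]

lemma mom {n : ℕ} (U A : Finset (Fin n)) (hA : A ⊆ U) :
    ∑ y ∈ YU U, (∑ u ∈ A, sg (y u)) ^ 2 = (#A : ℤ) * #(YU U) := by
  classical
  induction A using Finset.induction_on with
  | empty => simp
  | insert a A ha ih =>
    have hA' : A ⊆ U := fun x hx => hA (Finset.mem_insert_of_mem hx)
    have haU : a ∈ U := hA (Finset.mem_insert_self a A)
    have hcross : ∑ y ∈ YU U, sg (y a) * ∑ u ∈ A, sg (y u) = 0 := by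
      refine Finset.sum_involution (fun y _ => Function.update y a (!(y a))) ?_ ?_ ?_ ?_
      · intro y hy
        have h1 : ∑ u ∈ A, sg (Function.update y a (!(y a)) u) = ∑ u ∈ A, sg (y u) :=
          Finset.sum_congr rfl fun u hu => by
            have h2 : u ≠ a := fun h => ha (h ▸ hu)
            rw [Function.update_of_ne h2]
        rw [h1, Function.update_self, sg_not]
        ring
      · intro y hy _ h
        have h2 := congrFun h a
        rw [Function.update_self] at h2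
        cases h3 : y a <;> rw [h3] at h2 <;> simp at h2
      · intro y hy
        rw [mem_YU] at hy ⊢
        intro v hv
        have h2 : v ≠ a := fun h => hv (h ▸ haU)
        rw [Function.update_of_ne h2]
        exact hy v hv
      · intro y hy
        funext v
        by_cases hv : v = a
        · subst hv
          simp
        · simp [Function.update_of_ne hv]
    have hexp : ∀ y : Fin n → Bool, (∑ u ∈ insert a A, sg (y u)) ^ 2 =
        1 + 2 * (sg (y a) * ∑ u ∈ A, sg (y u)) + (∑ u ∈ A, sg (y u)) ^ 2 := by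
      intro y
      rw [Finset.sum_insert ha]
      linear_combination sg_sq (y a)
    rw [Finset.sum_congr rfl fun y _ => hexp y, Finset.sum_add_distrib, Finset.sum_add_distrib,
      ← Finset.mul_sum, hcross, ih hA', Finset.card_insert_of_notMem ha]
    simp
    ring

/-- the bipartition with the parts `ξ` and `y` -/
def glue {n : ℕ} (U : Finset (Fin n)) (ξ y : Fin n → Bool) (v : Fin n) : Bool :=
  if v ∈ U then y v else ξ v

lemma ay_glue {n : ℕ} (G : SimpleGraph (Fin n)) (U : Finset (Fin n)) (ξ y : Fin n → Bool)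
    (v : Fin n) : ay G (glue U ξ y) v = kk G U ξ v + ∑ u ∈ nb G v ∩ U, sg (y u) := by
  classical
  unfold ay kk
  rw [← Finset.sum_inter_add_sum_sdiff (nb G v) U, add_comm]
  congr 1
  · refine Finset.sum_congr rfl fun u hu => ?_
    rw [glue, if_neg (Finset.mem_sdiff.1 hu).2]
  · refine Finset.sum_congr rfl fun u hu => ?_
    rw [glue, if_pos (Finset.mem_inter.1 hu).2]

open scoped Classical in
/-- vertices with a large balance of the hidden neighbours -/
noncomputable def bd {n : ℕ} (k : ℕ) (G : SimpleGraph (Fin n)) (U : Finset (Fin n))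
    (y : Fin n → Bool) : Finset (Fin n) :=
  {v | 4 * k ^ 3 * gg G U v ≤ 1 + dg G v ∧
    (1 + dg G v : ℤ) < (k : ℤ) ^ 2 * (∑ u ∈ nb G v ∩ U, sg (y u)) ^ 2}

lemma bd_v {n : ℕ} (k : ℕ) (G : SimpleGraph (Fin n)) (U : Finset (Fin n)) (v : Fin n) :
    4 * k * #{y ∈ YU U | v ∈ bd k G U y} ≤ #(YU U) := by
  classical
  by_cases hv : 4 * k ^ 3 * gg G U v ≤ 1 + dg G v
  · have h1 : (1 + dg G v : ℤ) * #{y ∈ YU U | v ∈ bd k G U y} ≤
        (k : ℤ) ^ 2 * ((gg G U v : ℤ) * #(YU U)) := by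
      calc (1 + dg G v : ℤ) * #{y ∈ YU U | v ∈ bd k G U y}
          = ∑ y ∈ YU U with v ∈ bd k G U y, (1 + dg G v : ℤ) := by
            rw [Finset.sum_const, nsmul_eq_mul, mul_comm]
        _ ≤ ∑ y ∈ YU U with v ∈ bd k G U y,
              (k : ℤ) ^ 2 * (∑ u ∈ nb G v ∩ U, sg (y u)) ^ 2 := by
            refine Finset.sum_le_sum fun y hy => ?_
            have h2 := (Finset.mem_filter.1 hy).2
            unfold bd at h2
            exact (Finset.mem_filter.1 h2).2.2.le
        _ ≤ ∑ y ∈ YU U, (k : ℤ) ^ 2 * (∑ u ∈ nb G v ∩ U, sg (y u)) ^ 2 :=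
            Finset.sum_le_sum_of_subset_of_nonneg (Finset.filter_subset _ _)
              fun y _ _ => by positivity
        _ = (k : ℤ) ^ 2 * ((gg G U v : ℤ) * #(YU U)) := by
            rw [← Finset.mul_sum, mom U _ Finset.inter_subset_right]
            rfl
    have h2 : (4 * k ^ 3 * gg G U v : ℤ) ≤ 1 + dg G v := by exact_mod_cast hv
    have h3 : (1 + dg G v : ℤ) * (4 * k * #{y ∈ YU U | v ∈ bd k G U y}) ≤
        (1 + dg G v : ℤ) * #(YU U) := by
      calc (1 + dg G v : ℤ) * (4 * k * #{y ∈ YU U | v ∈ bd k G U y})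
          = 4 * k * ((1 + dg G v : ℤ) * #{y ∈ YU U | v ∈ bd k G U y}) := by ring
        _ ≤ 4 * k * ((k : ℤ) ^ 2 * ((gg G U v : ℤ) * #(YU U))) :=
            mul_le_mul_of_nonneg_left h1 (by positivity)
        _ = (4 * k ^ 3 * gg G U v : ℤ) * #(YU U) := by ring
        _ ≤ (1 + dg G v : ℤ) * #(YU U) := mul_le_mul_of_nonneg_right h2 (by positivity)
    have h4 := le_of_mul_le_mul_left h3 (by positivity)
    exact_mod_cast h4
  · have h1 : ({y ∈ YU U | v ∈ bd k G U y} : Finset (Fin n → Bool)) = ∅ := by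
      refine Finset.filter_eq_empty_iff.2 fun y _ h => hv ?_
      unfold bd at h
      exact (Finset.mem_filter.1 h).2.1
    rw [h1]
    simp

lemma bd_sum {n : ℕ} (k : ℕ) (G : SimpleGraph (Fin n)) (U : Finset (Fin n)) :
    ∑ y ∈ YU U, 4 * k * #(bd k G U y) ≤ n * #(YU U) := by
  classical
  calc ∑ y ∈ YU U, 4 * k * #(bd k G U y)
      = 4 * k * ∑ y ∈ YU U, ∑ v : Fin n, (if v ∈ bd k G U y then 1 else 0) := by
        rw [Finset.mul_sum]
        refine Finset.sum_congr rfl fun y _ => ?_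
        rw [Finset.sum_ite_mem, Finset.univ_inter, Finset.card_eq_sum_ones]
    _ = ∑ v : Fin n, 4 * k * #{y ∈ YU U | v ∈ bd k G U y} := by
        rw [Finset.sum_comm, Finset.mul_sum]
        refine Finset.sum_congr rfl fun v _ => ?_
        rw [Finset.card_filter]
    _ ≤ ∑ v : Fin n, #(YU U) := Finset.sum_le_sum fun v _ => bd_v k G U v
    _ = n * #(YU U) := by simp

lemma bal_glue {n k : ℕ} (G : SimpleGraph (Fin n)) (U : Finset (Fin n)) (hk : 1 ≤ k)
    (hT : Thin k G U) (ξ : Fin n → Bool) (hCB : CB k G U ξ) (y : Fin n → Bool)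
    (hy : 2 * k * #(bd k G U y) ≤ n) : Bal (3 / k) G (glue U ξ y) := by
  classical
  have hk0 : (0 : ℝ) < k := by exact_mod_cast hk
  have hsub : ({v | (3 / k : ℝ) ^ 2 * (1 + dg G v) < (ay G (glue U ξ y) v : ℝ) ^ 2} :
      Finset (Fin n)) ⊆ ({v | 1 + dg G v < 4 * k ^ 3 * gg G U v} : Finset (Fin n)) ∪
        bd k G U y ∪ (Finset.univ \ QQ k G U ξ) := by
    intro v hv
    by_contra hcon
    rw [Finset.mem_union, Finset.mem_union, not_or, not_or] at hcon
    obtain ⟨⟨h1, h2⟩, h3⟩ := hcon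
    have h1' : 4 * k ^ 3 * gg G U v ≤ 1 + dg G v := by
      by_contra h
      exact h1 (Finset.mem_filter.2 ⟨Finset.mem_univ _, not_le.1 h⟩)
    have h2' : (k : ℤ) ^ 2 * (∑ u ∈ nb G v ∩ U, sg (y u)) ^ 2 ≤ (1 + dg G v : ℤ) := by
      by_contra h
      refine h2 ?_
      unfold bd
      exact Finset.mem_filter.2 ⟨Finset.mem_univ _, h1', not_le.1 h⟩
    have h3' : (k : ℤ) ^ 2 * kk G U ξ v ^ 2 ≤ 4 * (1 + dg G v) := by
      by_contra h
      refine h3 (Finset.mem_sdiff.2 ⟨Finset.mem_univ _, fun h4 => h ?_⟩)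
      unfold QQ at h4
      exact (Finset.mem_filter.1 h4).2
    have h4 := (Finset.mem_filter.1 hv).2
    rw [ay_glue] at h4
    have h2r : (k : ℝ) ^ 2 * ((∑ u ∈ nb G v ∩ U, sg (y u) : ℤ) : ℝ) ^ 2 ≤ 1 + dg G v := by
      exact_mod_cast h2'
    have h3r : (k : ℝ) ^ 2 * ((kk G U ξ v : ℤ) : ℝ) ^ 2 ≤ 4 * (1 + dg G v) := by
      exact_mod_cast h3'
    have h5 : (k : ℝ) ^ 2 * ((3 / k : ℝ) ^ 2 * (1 + dg G v)) = 9 * (1 + dg G v) := by
      field_simp
      norm_num
    have h6 := mul_lt_mul_of_pos_left h4 (pow_pos hk0 2)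
    rw [h5] at h6
    push_cast at h6 h2r
    nlinarith [sq_nonneg ((k : ℝ) * (kk G U ξ v : ℝ) -
      2 * (k * (∑ u ∈ nb G v ∩ U, (sg (y u) : ℝ))))]
  have hc := Finset.card_le_card hsub
  have hc2 := hc.trans ((Finset.card_union_le _ _).trans
    (Nat.add_le_add_right (Finset.card_union_le _ _) _))
  unfold Thin at hT
  unfold CB at hCB
  have hQ : #(Finset.univ \ QQ k G U ξ) + #(QQ k G U ξ) = n := by
    have := Finset.card_sdiff_add_card_eq_card (Finset.subset_univ (QQ k G U ξ))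
    rw [this, Finset.card_univ, Fintype.card_fin]
  have hQ2 : k * #(Finset.univ \ QQ k G U ξ) ≤ 2 * n := by
    have h7 : k * #(Finset.univ \ QQ k G U ξ) + k * #(QQ k G U ξ) = k * n := by
      rw [← mul_add, hQ]
    omega
  have hfin : k * #({v | (3 / k : ℝ) ^ 2 * (1 + dg G v) < (ay G (glue U ξ y) v : ℝ) ^ 2} :
      Finset (Fin n)) ≤ 3 * n := by
    have h8 := Nat.mul_le_mul_left (2 * k) hc2
    have h9 : 2 * k * (#({v | 1 + dg G v < 4 * k ^ 3 * gg G U v} : Finset (Fin n)) +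
        #(bd k G U y) + #(Finset.univ \ QQ k G U ξ)) =
        2 * k * #({v | 1 + dg G v < 4 * k ^ 3 * gg G U v} : Finset (Fin n)) +
        2 * k * #(bd k G U y) + 2 * (k * #(Finset.univ \ QQ k G U ξ)) := by ring
    rw [h9] at h8
    have h10 : 2 * (k * #({v | (3 / k : ℝ) ^ 2 * (1 + dg G v) <
        (ay G (glue U ξ y) v : ℝ) ^ 2} : Finset (Fin n))) ≤ 2 * (3 * n) := by
      calc 2 * (k * #({v | (3 / k : ℝ) ^ 2 * (1 + dg G v) <
        (ay G (glue U ξ y) v : ℝ) ^ 2} : Finset (Fin n))) = 2 * k *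
          #({v | (3 / k : ℝ) ^ 2 * (1 + dg G v) <
        (ay G (glue U ξ y) v : ℝ) ^ 2} : Finset (Fin n)) := by ring
        _ ≤ _ := h8
        _ ≤ 2 * (3 * n) := by omega
    omega
  unfold Bal
  have hfin' : (k : ℝ) * #({v | (3 / k : ℝ) ^ 2 * (1 + dg G v) <
      (ay G (glue U ξ y) v : ℝ) ^ 2} : Finset (Fin n)) ≤ 3 * n := by exact_mod_cast hfin
  rw [div_mul_eq_mul_div, le_div_iff₀ hk0, mul_comm]
  exact hfin'

open scoped Classical in
lemma half {n k : ℕ} (G : SimpleGraph (Fin n)) (U : Finset (Fin n)) (hk : 1 ≤ k)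
    (hT : Thin k G U) (ξ : Fin n → Bool) (hCB : CB k G U ξ) :
    #(YU U) ≤ 2 * #{y ∈ YU U | Bal (3 / k) G (glue U ξ y)} := by
  have h1 := bd_sum k G U
  have h2 : #{y ∈ YU U | ¬ 2 * k * #(bd k G U y) ≤ n} * (2 * (n + 1)) ≤ n * #(YU U) := by
    refine le_trans ?_ h1
    refine le_trans ?_ (Finset.sum_le_sum_of_subset
      (Finset.filter_subset (fun y => ¬ 2 * k * #(bd k G U y) ≤ n) (YU U)))
    rw [← smul_eq_mul, ← Finset.sum_const]
    refine Finset.sum_le_sum fun y hy => ?_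
    have h3 := (Finset.mem_filter.1 hy).2
    have h4 : 4 * k * #(bd k G U y) = 2 * (2 * k * #(bd k G U y)) := by ring
    rw [h4]
    omega
  have h3 : 2 * #{y ∈ YU U | ¬ 2 * k * #(bd k G U y) ≤ n} ≤ #(YU U) := by
    by_contra h
    have h4 : #(YU U) * (n + 1) < 2 * #{y ∈ YU U | ¬ 2 * k * #(bd k G U y) ≤ n} * (n + 1) :=
      Nat.mul_lt_mul_of_pos_right (not_le.1 h) (Nat.succ_pos n)
    nlinarith
  have h4 := Finset.card_filter_add_card_filter_not (s := YU U)
    (fun y => 2 * k * #(bd k G U y) ≤ n)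
  have h5 : #{y ∈ YU U | 2 * k * #(bd k G U y) ≤ n} ≤
      #{y ∈ YU U | Bal (3 / k) G (glue U ξ y)} := by
    refine Finset.card_le_card fun y hy => ?_
    rw [Finset.mem_filter] at hy ⊢
    exact ⟨hy.1, bal_glue G U hk hT ξ hCB y hy.2⟩
  omega

theorem pf_cm : T_CM := by
  classical
  intro n k G U hk hT
  have h1 : ({q : (Fin n → Bool) × (Fin n → Bool) | (∀ v ∈ U, q.1 v = false) ∧
      (∀ v, v ∉ U → q.2 v = false) ∧ CB k G U q.1} : Finset _) =
      ({ξ : Fin n → Bool | (∀ v ∈ U, ξ v = false) ∧ CB k G U ξ} : Finset _).product (YU U) := by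
    ext q
    constructor
    · intro h
      have h2 := (Finset.mem_filter.1 h).2
      exact Finset.mem_product.2 ⟨Finset.mem_filter.2 ⟨Finset.mem_univ _, h2.1, h2.2.2⟩,
        mem_YU.2 h2.2.1⟩
    · intro h
      have h2 := Finset.mem_product.1 h
      have h3 := (Finset.mem_filter.1 h2.1).2
      exact Finset.mem_filter.2 ⟨Finset.mem_univ _, h3.1, mem_YU.1 h2.2, h3.2⟩
  have h2 : #({q : (Fin n → Bool) × (Fin n → Bool) | (∀ v ∈ U, q.1 v = false) ∧
      (∀ v, v ∉ U → q.2 v = false) ∧ CB k G U q.1 ∧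
        Bal (3 / k) G (glue U q.1 q.2)} : Finset _) ≤ numBal (3 / k) G := by
    unfold numBal
    refine Finset.card_le_card_of_injOn (fun q => glue U q.1 q.2) ?_ ?_
    · intro q hq
      have h3 := (Finset.mem_filter.1 (Finset.mem_coe.1 hq)).2
      exact Finset.mem_coe.2 (Finset.mem_filter.2 ⟨Finset.mem_univ _, h3.2.2.2⟩)
    · intro q hq q' hq' h
      have h3 := (Finset.mem_filter.1 (Finset.mem_coe.1 hq)).2
      have h4 := (Finset.mem_filter.1 (Finset.mem_coe.1 hq')).2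
      have h5 : ∀ v, glue U q.1 q.2 v = glue U q'.1 q'.2 v := fun v => congrFun h v
      refine Prod.ext ?_ ?_
      · funext v
        by_cases hv : v ∈ U
        · rw [h3.1 v hv, h4.1 v hv]
        · have := h5 v
          rw [glue, glue, if_neg hv, if_neg hv] at this
          exact this
      · funext v
        by_cases hv : v ∈ U
        · have := h5 v
          rw [glue, glue, if_pos hv, if_pos hv] at this
          exact this
        · rw [h3.2.1 v hv, h4.2.1 v hv]
  have h3 : #({q : (Fin n → Bool) × (Fin n → Bool) | (∀ v ∈ U, q.1 v = false) ∧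
      (∀ v, v ∉ U → q.2 v = false) ∧ CB k G U q.1 ∧
        Bal (3 / k) G (glue U q.1 q.2)} : Finset _) =
      ∑ ξ ∈ ({ξ : Fin n → Bool | (∀ v ∈ U, ξ v = false) ∧ CB k G U ξ} : Finset _),
        #{y ∈ YU U | Bal (3 / k) G (glue U ξ y)} := by
    rw [← Finset.card_sigma]
    refine Finset.card_bij (fun q _ => ⟨q.1, q.2⟩) ?_ ?_ ?_
    · intro q hq
      have h4 := (Finset.mem_filter.1 hq).2
      refine Finset.mem_sigma.2 ⟨Finset.mem_filter.2 ⟨Finset.mem_univ _, h4.1, h4.2.2.1⟩,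
        Finset.mem_filter.2 ⟨mem_YU.2 h4.2.1, h4.2.2.2⟩⟩
    · intro q _ q' _ h
      have h4 := Sigma.mk.inj_iff.1 h
      exact Prod.ext h4.1 (eq_of_heq h4.2)
    · intro s hs
      have h4 := Finset.mem_sigma.1 hs
      have h5 := (Finset.mem_filter.1 h4.1).2
      have h6 := Finset.mem_filter.1 h4.2
      exact ⟨(s.1, s.2), Finset.mem_filter.2 ⟨Finset.mem_univ _, h5.1, mem_YU.1 h6.1, h5.2,
        h6.2⟩, rfl⟩
  have h4 : #({q : (Fin n → Bool) × (Fin n → Bool) | (∀ v ∈ U, q.1 v = false) ∧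
      (∀ v, v ∉ U → q.2 v = false) ∧ CB k G U q.1} : Finset _) =
      ∑ ξ ∈ ({ξ : Fin n → Bool | (∀ v ∈ U, ξ v = false) ∧ CB k G U ξ} : Finset _),
        #(YU U) := by
    rw [h1]
    refine (Finset.card_product _ _).trans ?_
    rw [Finset.sum_const, smul_eq_mul]
  rw [h4]
  refine le_trans ?_ (Nat.mul_le_mul_left 2 h2)
  rw [h3, Finset.mul_sum]
  refine Finset.sum_le_sum fun ξ hξ => ?_
  exact half G U hk hT ξ (Finset.mem_filter.1 hξ).2.2

end Pool.Agent.H51.MCH
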